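import Mathlib
import Pool.Agent.Helper18.EW.Goals4
import Pool.Agent.Lead.ShMain

/-!
# Packet EW-GL (MP_d3128a_ag): gluing along a line
-/

set_option autoImplicit false

namespace Pool.Agent.Helper85.EW

open Finset
open Pool.Agent.Lead.Sh
open Pool.Agent.Helper18.EW

theorem ind_card {D : Finset (ℕ × ℕ)} {R : Finset Row} (h : Ind D R) : R.card ≤ D.card := by
  classical
  obtain ⟨P, hP⟩ := h
  set M : Matrix ↥D ↥R ℂ := Matrix.of (fun d r =>
    E (r : Row).2 (d : ℕ × ℕ) (P (r : Row).1).1 (P (r : Row).1).2) with hM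
  have hinj : Function.Injective M.mulVecLin := by
    rw [injective_iff_map_eq_zero]
    intro l hl
    set l' : Row → ℂ := fun r => if h : r ∈ R then l ⟨r, h⟩ else 0 with hl'
    have hl2 : ∀ r : ↥R, l' r = l r := by
      intro r
      simp only [hl']
      rw [dif_pos r.2]
    funext r
    rw [← hl2, Pi.zero_apply]
    refine hP l' ?_ r r.2
    intro d hd
    have h1 := congrFun hl ⟨d, hd⟩
    rw [Matrix.mulVecLin_apply, Matrix.mulVec, dotProduct, Pi.zero_apply] at h1
    rw [← sum_coe_sort R, ← h1]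
    apply sum_congr rfl
    intro r _
    rw [hl2, hM, Matrix.of_apply, mul_comm]
  have h2 := LinearMap.finrank_le_finrank_of_injective hinj
  rw [Module.finrank_fintype_fun_eq_card, Module.finrank_fintype_fun_eq_card,
    Fintype.card_coe, Fintype.card_coe] at h2
  exact h2

theorem mem_triZ (d h : ℕ) (x : ℕ × ℕ) : x ∈ triZ d h ↔ x.1 + x.2 ≤ d ∧ x.2 < h := by
  unfold triZ
  rw [mem_filter, mem_triD]
  constructor
  · rintro ⟨⟨_, h1⟩, h2⟩
    exact ⟨h1, h2⟩
  · rintro ⟨h1, h2⟩
    exact ⟨⟨Nat.zero_le _, h1⟩, h2⟩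

theorem card_count {d e : ℕ} (he : 1 ≤ e) (hed : e < d) :
    (triD 0 e).card + (triZ d (d - e + 1)).card = (triD 0 d).card + e + 1 := by
  have h1 := Finset.card_filter_add_card_filter_not (s := triD 0 d) (fun x => x.2 < d - e + 1)
  have h2 : ((triD 0 d).filter (fun x => ¬ x.2 < d - e + 1)).card = (triD 0 (e - 1)).card := by
    symm
    apply card_bij (fun (x : ℕ × ℕ) _ => (x.1, x.2 + (d - e + 1)))
    · intro x hx
      rw [mem_triD] at hx
      rw [mem_filter, mem_triD]
      simp only
      omega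
    · intro x _ y _ hxy
      rw [Prod.mk.injEq] at hxy
      exact Prod.ext hxy.1 (by omega)
    · intro y hy
      rw [mem_filter, mem_triD] at hy
      refine ⟨(y.1, y.2 - (d - e + 1)), ?_, ?_⟩
      · rw [mem_triD]
        simp only
        omega
      · ext
        · rfl
        · simp only
          omega
  have h3 : ((triD 0 d).filter (fun x => x.2 < d - e + 1)).card = (triZ d (d - e + 1)).card := rfl
  rw [h3, h2] at h1
  have h4 : (triD 0 e).card = (triD 0 (e - 1)).card + (e + 1) := by
    rw [card_triD, card_triD, show e - 1 + 2 = e + 1 by omega]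
    have h5 := Nat.choose_succ_succ' (e + 1) 1
    rw [Nat.choose_one_right] at h5
    have h6 : (e + 2).choose 2 = (e + 1 + 1).choose (1 + 1) := rfl
    have h7 : (e + 1).choose 2 = (e + 1).choose (1 + 1) := rfl
    omega
  omega

theorem invJ (hSw : GoalSw)
    (hInv : ∀ (N : ℕ) (D : Finset (ℕ × ℕ)) (m : ℕ → ℕ) (s : Finset ℕ),
      (∀ x ∈ D, x.1 + x.2 ≤ N) → Inj D (rows m s) →
      Inj (D.image (fun x => (N - x.1 - x.2, x.2))) (rows m s))
    (N : ℕ) (D : Finset (ℕ × ℕ)) (m : ℕ → ℕ) (s : Finset ℕ)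
    (h : ∀ x ∈ D, x.1 + x.2 ≤ N) (hI : Inj D (rows m s)) :
    Inj (D.image (fun x => (x.1, N - x.1 - x.2))) (rows m s) := by
  have h1 := hSw D m s hI
  have h2 := hInv N _ m s (by
    intro x hx
    obtain ⟨y, hy, rfl⟩ := mem_image.1 hx
    have := h y hy
    simp only
    omega) h1
  have h3 := hSw _ m s h2
  rw [image_image, image_image] at h3
  have e : ((fun x : ℕ × ℕ => (x.2, x.1)) ∘ (fun x : ℕ × ℕ => (N - x.1 - x.2, x.2)) ∘
      fun x : ℕ × ℕ => (x.2, x.1)) = fun x : ℕ × ℕ => (x.1, N - x.1 - x.2) := by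
    funext x
    simp only [Function.comp_apply]
    ext
    · rfl
    · simp only
      omega
  rw [← e]
  exact h3

/-- Goal GL. -/
theorem goalGL : GoalGL := by
  intro hCP hWr hSw hInv0 hGT0
  have hInv := hInv0 hCP
  have hGT := hGT0 hCP hWr
  intro m d e s t he hed hst hA1 hA2 hB1 hB2 hc
  have c1 := ind_card hA1
  have c2 := ind_card hB1
  have c3 := card_count he hed
  have c4 : (rows m (s ∪ t)).card ≤ (rows m s).card + (rows m t).card := by
    rw [rows_union]
    exact card_union_le _ _
  obtain ⟨w, hw⟩ : ∃ w, w = (triD 0 e).card - (rows m s).card := ⟨_, rfl⟩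
  have hwe : w ≤ e + 1 := by omega
  -- the points `s`
  have hA3 := invJ hSw hInv e _ m s (by
    intro x hx
    rw [mem_triD] at hx
    omega) hA2
  have hA4 : (triD 0 (e - 1)).image (fun x => (x.1, e - x.1 - x.2)) =
      (triD 0 e).filter (fun x => x.2 ≠ 0) := by
    ext x
    rw [mem_image, mem_filter, mem_triD]
    constructor
    · rintro ⟨y, hy, rfl⟩
      rw [mem_triD] at hy
      simp only
      omega
    · rintro ⟨h1, h2⟩
      refine ⟨(x.1, e - x.1 - x.2), ?_, ?_⟩
      · rw [mem_triD]
        simp only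
        omega
      · ext
        · rfl
        · simp only
          omega
  rw [hA4] at hA3
  have hA5 := hGT (triD 0 e) m s 0 w (by
    intro x hx i hi
    rw [mem_triD] at hx ⊢
    simp only
    omega) hA1 hA3 (by omega)
  have hA6 := invJ hSw hInv e _ m s (by
    intro x hx
    rw [mem_filter, mem_triD] at hx
    omega) hA5
  -- the points `t`
  have hB3 : (triZ d (d - e + 1)).filter (fun x => x.2 ≠ d - e) = triZ d (d - e) := by
    ext x
    rw [mem_filter, mem_triZ, mem_triZ]
    omega
  have hB4 := hGT (triZ d (d - e + 1)) m t (d - e) (e + 1 - w) (by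
    intro x hx i hi
    rw [mem_triZ] at hx ⊢
    simp only
    omega) hB1 (by rw [hB3]; exact hB2) (by omega)
  have hB5 := hInv d _ m t (by
    intro x hx
    rw [mem_filter, mem_triZ] at hx
    omega) hB4
  have hB6 := invJ hSw hInv d _ m t (by
    intro x hx
    obtain ⟨y, hy, rfl⟩ := mem_image.1 hx
    rw [mem_filter, mem_triZ] at hy
    simp only
    omega) hB5
  have hglue := Inj.glue (w := (d + 1, d + 1 + 1)) (c' := (d + 1) * e + e - w) hA6 hB6 (by
      intro x hx
      obtain ⟨y, hy, rfl⟩ := mem_image.1 hx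
      rw [mem_filter, mem_triD] at hy
      obtain ⟨⟨-, hy1⟩, hy2⟩ := hy
      have e1 : wt (d + 1, d + 1 + 1) (y.1, e - y.1 - y.2) =
          (d + 1) * (y.1 + (e - y.1 - y.2)) + (e - y.1 - y.2) := by
        unfold wt
        simp only
        ring
      rw [e1]
      rcases Nat.eq_zero_or_pos y.2 with h0 | h0
      · have := hy2 h0
        rw [h0, show y.1 + (e - y.1 - 0) = e by omega]
        omega
      · have e2 : (d + 1) * (y.1 + (e - y.1 - y.2)) ≤ (d + 1) * (e - 1) :=
          Nat.mul_le_mul le_rfl (by omega)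
        have e3 : (d + 1) * (e - 1) + (d + 1) = (d + 1) * e := by
          conv_rhs => rw [show e = e - 1 + 1 by omega]
          ring
        omega) (by
      intro x hx
      obtain ⟨z, hz, rfl⟩ := mem_image.1 hx
      obtain ⟨y, hy, rfl⟩ := mem_image.1 hz
      rw [mem_filter, mem_triZ] at hy
      obtain ⟨⟨hy1, hy3⟩, hy2⟩ := hy
      simp only
      obtain ⟨a, ha⟩ : ∃ a, a = d - y.1 - y.2 := ⟨_, rfl⟩
      obtain ⟨b, hb⟩ : ∃ b, b = d - a - y.2 := ⟨_, rfl⟩
      rw [← ha, ← hb]
      have e1 : wt (d + 1, d + 1 + 1) (a, b) = (d + 1) * (a + b) + b := by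
        unfold wt
        simp only
        ring
      rw [e1]
      rcases Nat.lt_or_ge e (a + b) with h0 | h0
      · have e2 : (d + 1) * (e + 1) ≤ (d + 1) * (a + b) := Nat.mul_le_mul le_rfl (by omega)
        have e3 : (d + 1) * (e + 1) = (d + 1) * e + (d + 1) := by ring
        omega
      · have h1 : a + b = e := by omega
        have h2 := hy2 (by omega)
        rw [h1]
        have e3 : 1 ≤ (d + 1) * e := Nat.mul_pos (by omega) he
        omega) (rows_disj m s t hst)
  rw [rows_union]
  refine hglue.mono ?_ subset_rfl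
  intro x hx
  rw [mem_triD] at hx
  rw [mem_union, mem_image, mem_image]
  by_cases hxA : x.1 + x.2 ≤ e ∧ (x.1 + x.2 = e → w ≤ x.1)
  · left
    refine ⟨(x.1, e - x.1 - x.2), ?_, ?_⟩
    · rw [mem_filter, mem_triD]
      simp only
      omega
    · ext
      · rfl
      · simp only
        omega
  · right
    refine ⟨(x.1, d - x.1 - x.2), ?_, ?_⟩
    · rw [mem_image]
      refine ⟨(d - x.1 - (d - x.1 - x.2), d - x.1 - x.2), ?_, ?_⟩
      · rw [mem_filter, mem_triZ]
        simp only
        omega
      · ext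
        · simp only
          omega
        · rfl
    · ext
      · rfl
      · simp only
        omega

end Pool.Agent.Helper85.EW
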